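import Pool.Agent.BED.Stmts

/-!
# BED, row JDE: derivatives of the Bessel function `J_0` and its differential equation
-/

set_option autoImplicit false

namespace Pool.Agent.BED.H65

open Set Filter Topology MeasureTheory
open Pool.Agent.BED

/-- the terms of the series of the derivative -/
noncomputable def g1 (n : ℕ) (x : ℝ) : ℝ := bj n * (((2 * n : ℕ) : ℝ) * x ^ (2 * n - 1))

/-- the terms of the series of the second derivative -/
noncomputable def g2 (n : ℕ) (x : ℝ) : ℝ :=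
  bj n * (((2 * n : ℕ) : ℝ) * (((2 * n - 1 : ℕ) : ℝ) * x ^ (2 * n - 1 - 1)))

theorem bj_abs (n : ℕ) : |bj n| = 1 / (4 ^ n * (n.factorial : ℝ) ^ 2) := by
  unfold bj
  rw [abs_div, abs_pow, abs_neg, abs_one, one_pow, abs_of_nonneg (by positivity)]

/-- the majorant -/
theorem bj_bound (n : ℕ) (R P : ℝ) (hP : P ≤ 4 * 4 ^ n) :
    |bj n| * (P * R ^ (2 * n)) ≤ 4 * ((R ^ 2) ^ n / n.factorial) := by
  rw [bj_abs, pow_mul]
  have h1 : (1 : ℝ) ≤ n.factorial := by exact_mod_cast Nat.succ_le_of_lt n.factorial_pos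
  have h2 : (0 : ℝ) ≤ (R ^ 2) ^ n := by positivity
  have h3 : (0 : ℝ) < 4 ^ n := by positivity
  have h4 : 1 / (4 ^ n * (n.factorial : ℝ) ^ 2) * (P * (R ^ 2) ^ n) ≤
      1 / (4 ^ n * (n.factorial : ℝ) ^ 2) * (4 * 4 ^ n * (R ^ 2) ^ n) :=
    mul_le_mul_of_nonneg_left (mul_le_mul_of_nonneg_right hP h2) (by positivity)
  refine h4.trans ?_
  have h5 : 1 / (4 ^ n * (n.factorial : ℝ) ^ 2) * (4 * 4 ^ n * (R ^ 2) ^ n) =
      4 * ((R ^ 2) ^ n / (n.factorial : ℝ) ^ 2) := by
    field_simp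
  rw [h5]
  refine mul_le_mul_of_nonneg_left ?_ (by norm_num)
  refine div_le_div_of_nonneg_left h2 (by linarith) ?_
  nlinarith

theorem maj_summable (R : ℝ) : Summable fun n : ℕ => 4 * ((R ^ 2) ^ n / n.factorial) :=
  (Real.summable_pow_div_factorial (R ^ 2)).mul_left 4

theorem sq_le (n : ℕ) : (((2 * n : ℕ) : ℝ)) * ((2 * n : ℕ) : ℝ) ≤ 4 * 4 ^ n := by
  have h1 : n ≤ 2 ^ n := Nat.lt_two_pow_self.le
  have h2 : (n : ℝ) ≤ 2 ^ n := by exact_mod_cast h1
  have h3 : (4 : ℝ) ^ n = 2 ^ n * 2 ^ n := by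
    rw [← mul_pow]
    norm_num
  rw [h3]
  push_cast
  have h4 : (0 : ℝ) ≤ n := Nat.cast_nonneg n
  nlinarith

theorem g1_bound (n : ℕ) (R x : ℝ) (hR : 1 ≤ R) (hx : |x| ≤ R) :
    |g1 n x| ≤ 4 * ((R ^ 2) ^ n / n.factorial) := by
  have h0 : (0 : ℝ) ≤ ((2 * n : ℕ) : ℝ) := Nat.cast_nonneg _
  have h1 : |x| ^ (2 * n - 1) ≤ R ^ (2 * n) :=
    (pow_le_pow_left₀ (abs_nonneg x) hx _).trans (pow_le_pow_right₀ hR (Nat.sub_le _ _))
  have h2 : |g1 n x| = |bj n| * (((2 * n : ℕ) : ℝ) * |x| ^ (2 * n - 1)) := by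
    unfold g1
    rw [abs_mul, abs_mul, abs_pow, abs_of_nonneg h0]
  rw [h2]
  refine le_trans ?_ (bj_bound n R (((2 * n : ℕ) : ℝ)) ?_)
  · exact mul_le_mul_of_nonneg_left (mul_le_mul_of_nonneg_left h1 h0) (abs_nonneg _)
  · rcases Nat.eq_zero_or_pos n with rfl | hn
    · norm_num
    · have h3 := sq_le n
      have h4 : (1 : ℝ) ≤ ((2 * n : ℕ) : ℝ) := by exact_mod_cast (by omega : 1 ≤ 2 * n)
      nlinarith

theorem g2_bound (n : ℕ) (R x : ℝ) (hR : 1 ≤ R) (hx : |x| ≤ R) :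
    |g2 n x| ≤ 4 * ((R ^ 2) ^ n / n.factorial) := by
  have h0 : (0 : ℝ) ≤ ((2 * n : ℕ) : ℝ) := Nat.cast_nonneg _
  have h0' : (0 : ℝ) ≤ ((2 * n - 1 : ℕ) : ℝ) := Nat.cast_nonneg _
  have h1 : |x| ^ (2 * n - 1 - 1) ≤ R ^ (2 * n) :=
    (pow_le_pow_left₀ (abs_nonneg x) hx _).trans
      (pow_le_pow_right₀ hR ((Nat.sub_le _ _).trans (Nat.sub_le _ _)))
  have h2 : |g2 n x| = |bj n| * (((2 * n : ℕ) : ℝ) * ((2 * n - 1 : ℕ) : ℝ) *
      |x| ^ (2 * n - 1 - 1)) := by
    unfold g2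
    rw [abs_mul, abs_mul, abs_mul, abs_pow, abs_of_nonneg h0, abs_of_nonneg h0']
    ring
  rw [h2]
  refine le_trans ?_ (bj_bound n R (((2 * n : ℕ) : ℝ) * ((2 * n - 1 : ℕ) : ℝ)) ?_)
  · exact mul_le_mul_of_nonneg_left (mul_le_mul_of_nonneg_left h1 (mul_nonneg h0 h0'))
      (abs_nonneg _)
  · refine le_trans ?_ (sq_le n)
    refine mul_le_mul_of_nonneg_left ?_ h0
    exact_mod_cast Nat.sub_le _ _

theorem g0_summable (x : ℝ) : Summable fun n : ℕ => bj n * x ^ (2 * n) := by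
  refine Summable.of_norm_bounded (maj_summable x) fun n => ?_
  rw [Real.norm_eq_abs, abs_mul, abs_of_nonneg (by rw [pow_mul]; positivity : (0 : ℝ) ≤ x ^ (2 * n))]
  have h := bj_bound n x 1 (by
    have : (1 : ℝ) ≤ 4 ^ n := one_le_pow₀ (by norm_num)
    linarith)
  rwa [one_mul] at h

theorem g1_summable (x : ℝ) : Summable fun n : ℕ => g1 n x := by
  refine Summable.of_norm_bounded (maj_summable (max 1 |x|)) fun n => ?_
  rw [Real.norm_eq_abs]
  exact g1_bound n _ x (le_max_left _ _) (le_max_right _ _)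

theorem g2_summable (x : ℝ) : Summable fun n : ℕ => g2 n x := by
  refine Summable.of_norm_bounded (maj_summable (max 1 |x|)) fun n => ?_
  rw [Real.norm_eq_abs]
  exact g2_bound n _ x (le_max_left _ _) (le_max_right _ _)

theorem j0_hasDeriv (x : ℝ) : HasDerivAt j0 (∑' n, g1 n x) x := by
  have hb : x ∈ Metric.ball (0 : ℝ) (|x| + 1) := by
    rw [Metric.mem_ball, dist_zero_right, Real.norm_eq_abs]
    linarith
  have h := hasDerivAt_tsum_of_isPreconnected (u := fun n : ℕ => 4 * (((|x| + 1) ^ 2) ^ n / n.factorial))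
    (g := fun (n : ℕ) (y : ℝ) => bj n * y ^ (2 * n)) (g' := fun (n : ℕ) (y : ℝ) => g1 n y)
    (t := Metric.ball (0 : ℝ) (|x| + 1)) (maj_summable _) Metric.isOpen_ball
    (convex_ball _ _).isPreconnected (fun n y _ => (hasDerivAt_pow (2 * n) y).const_mul (bj n))
    (fun n y hy => by
      rw [Metric.mem_ball, dist_zero_right, Real.norm_eq_abs] at hy
      rw [Real.norm_eq_abs]
      exact g1_bound n _ y (by linarith [abs_nonneg x]) hy.le) hb (g0_summable x) hb
  exact h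

theorem j1_hasDeriv (x : ℝ) : HasDerivAt (fun y => ∑' n, g1 n y) (∑' n, g2 n x) x := by
  have hb : x ∈ Metric.ball (0 : ℝ) (|x| + 1) := by
    rw [Metric.mem_ball, dist_zero_right, Real.norm_eq_abs]
    linarith
  have h := hasDerivAt_tsum_of_isPreconnected (u := fun n : ℕ => 4 * (((|x| + 1) ^ 2) ^ n / n.factorial))
    (g := fun (n : ℕ) (y : ℝ) => g1 n y) (g' := fun (n : ℕ) (y : ℝ) => g2 n y)
    (t := Metric.ball (0 : ℝ) (|x| + 1)) (maj_summable _) Metric.isOpen_ball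
    (convex_ball _ _).isPreconnected (fun n y _ =>
      (((hasDerivAt_pow (2 * n - 1) y).const_mul (((2 * n : ℕ) : ℝ))).const_mul (bj n)))
    (fun n y hy => by
      rw [Metric.mem_ball, dist_zero_right, Real.norm_eq_abs] at hy
      rw [Real.norm_eq_abs]
      exact g2_bound n _ y (by linarith [abs_nonneg x]) hy.le) hb (g1_summable x) hb
  exact h

theorem deriv_j0 : deriv j0 = fun x => ∑' n, g1 n x := by
  funext x
  exact (j0_hasDeriv x).deriv

theorem deriv2_j0 : deriv (deriv j0) = fun x => ∑' n, g2 n x := by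
  rw [deriv_j0]
  funext x
  exact (j1_hasDeriv x).deriv

theorem bj_succ (n : ℕ) : bj (n + 1) * (((2 * (n + 1) : ℕ) : ℝ) * ((2 * (n + 1) : ℕ) : ℝ)) = -bj n := by
  unfold bj
  rw [Nat.factorial_succ]
  push_cast
  have h1 : (n.factorial : ℝ) ≠ 0 := by exact_mod_cast n.factorial_ne_zero
  have h2 : (n : ℝ) + 1 ≠ 0 := by positivity
  field_simp
  ring

theorem ode (x : ℝ) : x * deriv (deriv j0) x + deriv j0 x + x * j0 x = 0 := by
  rw [deriv2_j0, deriv_j0]
  show x * (∑' n, g2 n x) + (∑' n, g1 n x) + x * (∑' n, bj n * x ^ (2 * n)) = 0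
  have hs2 : Summable fun n : ℕ => x * g2 n x := (g2_summable x).mul_left x
  have hs1 := g1_summable x
  have e1 : x * (∑' n, g2 n x) + (∑' n, g1 n x) = ∑' n, (x * g2 n x + g1 n x) := by
    rw [← tsum_mul_left, ← hs2.tsum_add hs1]
  have hs3 : Summable fun n : ℕ => x * g2 n x + g1 n x := hs2.add hs1
  rw [e1, hs3.tsum_eq_zero_add, ← tsum_mul_left]
  have e0 : x * g2 0 x + g1 0 x = 0 := by
    unfold g2 g1
    simp
  rw [e0, zero_add]
  have e2 : ∀ n : ℕ, x * g2 (n + 1) x + g1 (n + 1) x = -(x * (bj n * x ^ (2 * n))) := by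
    intro n
    unfold g2 g1
    have h1 : 2 * (n + 1) - 1 - 1 = 2 * n := by omega
    have h2 : 2 * (n + 1) - 1 = 2 * n + 1 := by omega
    rw [h1, h2]
    have h3 := bj_succ n
    have h4 : ((2 * n + 1 : ℕ) : ℝ) = ((2 * (n + 1) : ℕ) : ℝ) - 1 := by
      push_cast
      ring
    rw [h4]
    calc x * (bj (n + 1) * (((2 * (n + 1) : ℕ) : ℝ) * ((((2 * (n + 1) : ℕ) : ℝ) - 1) * x ^ (2 * n)))) +
          bj (n + 1) * (((2 * (n + 1) : ℕ) : ℝ) * x ^ (2 * n + 1))
        = x * ((bj (n + 1) * (((2 * (n + 1) : ℕ) : ℝ) * ((2 * (n + 1) : ℕ) : ℝ))) * x ^ (2 * n)) := by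
          ring
      _ = -(x * (bj n * x ^ (2 * n))) := by
          rw [h3]
          ring
  rw [tsum_congr e2, tsum_neg]
  ring

theorem mul_deriv (x : ℝ) : x * deriv j0 x = ∑' k : ℕ, 2 * (k : ℝ) * bj k * x ^ (2 * k) := by
  rw [deriv_j0]
  show x * (∑' n, g1 n x) = _
  rw [← tsum_mul_left]
  refine tsum_congr fun n => ?_
  unfold g1
  rcases Nat.eq_zero_or_pos n with rfl | hn
  · simp
  · obtain ⟨m, rfl⟩ := Nat.exists_eq_add_of_le' hn
    have h2 : 2 * (m + 1) - 1 = 2 * m + 1 := by omega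
    rw [h2]
    push_cast
    ring

theorem j0_zero : j0 0 = 1 := by
  unfold j0
  rw [tsum_eq_single 0]
  · unfold bj
    simp
  · intro n hn
    have h : 2 * n ≠ 0 := by omega
    rw [zero_pow h, mul_zero]

theorem deriv_zero' : deriv j0 0 = 0 := by
  rw [deriv_j0]
  show (∑' n, g1 n 0) = 0
  have h : ∀ n : ℕ, g1 n 0 = 0 := by
    intro n
    unfold g1
    rcases Nat.eq_zero_or_pos n with rfl | hn
    · simp
    · have h2 : 2 * n - 1 ≠ 0 := by omega
      rw [zero_pow h2, mul_zero, mul_zero]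
  rw [tsum_congr h, tsum_zero]

/-- the energy -/
theorem energy_deriv (x : ℝ) : HasDerivAt (fun x => j0 x ^ 2 + deriv j0 x ^ 2)
    (2 * deriv j0 x * (j0 x + deriv (deriv j0) x)) x := by
  have h1 : HasDerivAt j0 (deriv j0 x) x := (j0_hasDeriv x).differentiableAt.hasDerivAt
  have h2 : HasDerivAt (deriv j0) (deriv (deriv j0) x) x := by
    have h := j1_hasDeriv x
    rw [← deriv_j0] at h
    exact h.differentiableAt.hasDerivAt
  have h3 := (h1.pow 2).add (h2.pow 2)
  refine h3.congr_deriv ?_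
  push_cast
  ring

theorem energy_le (x : ℝ) : j0 x ^ 2 + deriv j0 x ^ 2 ≤ 1 := by
  have hcont : Continuous fun x => j0 x ^ 2 + deriv j0 x ^ 2 :=
    continuous_iff_continuousAt.2 fun x => (energy_deriv x).continuousAt
  have hE0 : j0 0 ^ 2 + deriv j0 0 ^ 2 = 1 := by
    rw [j0_zero, deriv_zero']
    norm_num
  have hsign : ∀ y : ℝ, y * (2 * deriv j0 y * (j0 y + deriv (deriv j0) y)) =
      -(2 * deriv j0 y ^ 2) := by
    intro y
    have h := ode y
    have h1 : y * deriv (deriv j0) y = -deriv j0 y - y * j0 y := by linarith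
    calc y * (2 * deriv j0 y * (j0 y + deriv (deriv j0) y))
        = 2 * deriv j0 y * (y * j0 y + y * deriv (deriv j0) y) := by ring
      _ = -(2 * deriv j0 y ^ 2) := by
          rw [h1]
          ring
  rcases le_total 0 x with hx | hx
  · have hanti : AntitoneOn (fun x => j0 x ^ 2 + deriv j0 x ^ 2) (Ici 0) := by
      refine antitoneOn_of_deriv_nonpos (convex_Ici 0) hcont.continuousOn
        (fun y _ => (energy_deriv y).differentiableAt.differentiableWithinAt) ?_
      intro y hy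
      rw [interior_Ici] at hy
      have hy0 : 0 < y := hy
      rw [(energy_deriv y).deriv]
      have h1 := hsign y
      have h2 : 0 ≤ 2 * deriv j0 y ^ 2 := by positivity
      by_contra hcon
      push Not at hcon
      have h3 := mul_pos hy0 hcon
      linarith
    have h4 := hanti (self_mem_Ici) hx hx
    simp only at h4
    rwa [hE0] at h4
  · have hmono : MonotoneOn (fun x => j0 x ^ 2 + deriv j0 x ^ 2) (Iic 0) := by
      refine monotoneOn_of_deriv_nonneg (convex_Iic 0) hcont.continuousOn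
        (fun y _ => (energy_deriv y).differentiableAt.differentiableWithinAt) ?_
      intro y hy
      rw [interior_Iic] at hy
      have hy0 : y < 0 := hy
      rw [(energy_deriv y).deriv]
      have h1 := hsign y
      have h2 : 0 ≤ 2 * deriv j0 y ^ 2 := by positivity
      by_contra hcon
      push Not at hcon
      have h3 := mul_pos_of_neg_of_neg hy0 hcon
      linarith
    have h4 := hmono hx (self_mem_Iic) hx
    simp only at h4
    rwa [hE0] at h4

theorem abs_deriv_le (x : ℝ) : |deriv j0 x| ≤ 1 := by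
  have h := energy_le x
  have h1 : deriv j0 x ^ 2 ≤ 1 := by nlinarith [sq_nonneg (j0 x)]
  exact (sq_le_one_iff_abs_le_one _).1 h1

/-- JDE -/
theorem jde : JdeStmt := by
  refine ⟨fun x => (j0_hasDeriv x).differentiableAt.hasDerivAt, fun x => ?_, ode, mul_deriv,
    abs_deriv_le, fun x y => ?_⟩
  · have h := j1_hasDeriv x
    rw [← deriv_j0] at h
    exact h.differentiableAt.hasDerivAt
  · have h := Convex.norm_image_sub_le_of_norm_deriv_le (𝕜 := ℝ) (f := j0) (C := 1)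
      (s := Set.univ) (x := y) (y := x)
      (fun z _ => (j0_hasDeriv z).differentiableAt) (fun z _ => by
        rw [Real.norm_eq_abs]
        exact abs_deriv_le z) convex_univ (mem_univ y) (mem_univ x)
    rw [Real.norm_eq_abs, Real.norm_eq_abs, one_mul] at h
    exact h

end Pool.Agent.BED.H65
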